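import Pool.Agent.helper37.ND.Spec
import Pool.Agent.helper59.FI.Base

/-!
# MP_baa4d7_al, THEOREM ND, row GFX: fixed points
-/

set_option autoImplicit false

namespace Pool.Agent.ND

open Pool.Agent.helper58.DC Pool.Agent.DI Pool.Agent.GR Pool.Agent.OB Pool.Agent.DR Pool.Agent.FI Pool.Agent.FI3 Pool.Agent.FI4 Pool.Agent.FI4I Pool.Agent.LE Pool.Agent.L5 Pool.Agent.NAB

section

variable {G : Type} [Group G]

/-- `a` acts on `Z` as the `n`-th power. -/
def GFX_P (Z : Subgroup G) (a : G) (n : ℤ) : Prop := ∀ y ∈ Z, a * y * a⁻¹ = y ^ n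

theorem GFX_nz (Z : Subgroup G) (a y : G) (ha : a ∈ nz Z) (hy : y ∈ Z) : a * y * a⁻¹ ∈ Z :=
  (Subgroup.mem_normalizer_iff.1 ha y).1 hy

theorem GFX_ex (Z : Subgroup G) (c : G) (hZ : Z = Subgroup.zpowers c) (a : G) (ha : a ∈ nz Z) : ∃ n : ℤ, GFX_P Z a n := by
  have hc : c ∈ Z := by rw [hZ]; exact Subgroup.mem_zpowers c
  have h1 := GFX_nz Z a c ha hc
  rw [hZ] at h1
  obtain ⟨n, hn⟩ := Subgroup.mem_zpowers_iff.1 h1
  refine ⟨n, fun y hy => ?_⟩
  rw [hZ] at hy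
  obtain ⟨i, rfl⟩ := Subgroup.mem_zpowers_iff.1 hy
  rw [← conj_zpow, ← hn, ← zpow_mul, ← zpow_mul, mul_comm]

theorem GFX_one (Z : Subgroup G) : GFX_P Z (1 : G) 1 := by
  intro y _
  rw [zpow_one, one_mul, inv_one, mul_one]

theorem GFX_cz (Z : Subgroup G) (a : G) : a ∈ cz Z ↔ GFX_P Z a 1 := by
  constructor
  · intro h y hy
    have h1 := Subgroup.mem_centralizer_iff.1 h y hy
    rw [zpow_one, ← h1, mul_inv_cancel_right]
  · intro h
    refine Subgroup.mem_centralizer_iff.2 fun y hy => ?_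
    have h1 := h y hy
    rw [zpow_one] at h1
    have h2 : a * y = y * a := mul_inv_eq_iff_eq_mul.1 h1
    exact h2.symm

theorem GFX_mul (Z : Subgroup G) (a b : G) (n k : ℤ) (ha : GFX_P Z a n) (hb : GFX_P Z b k) : GFX_P Z (a * b) (n * k) := by
  intro y hy
  have h1 : a * b * y * (a * b)⁻¹ = a * (b * y * b⁻¹) * a⁻¹ := by group
  rw [h1, hb y hy, ha _ (Z.zpow_mem hy k), ← zpow_mul, mul_comm]

theorem GFX_pow (Z : Subgroup G) (a : G) (n : ℤ) (ha : GFX_P Z a n) (j : ℕ) : GFX_P Z (a ^ j) (n ^ j) := by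
  induction j with
  | zero => rw [pow_zero, pow_zero]; exact GFX_one Z
  | succ j ih =>
    rw [pow_succ, pow_succ]
    exact GFX_mul Z _ _ _ _ ih ha

/-- exponents are determined modulo the order of the generator -/
theorem GFX_uniq (Z : Subgroup G) (c : G) (hc : c ∈ Z) (a : G) (n k : ℤ) (ha : GFX_P Z a n) (hb : GFX_P Z a k) : (orderOf c : ℤ) ∣ n - k := by
  have h1 : c ^ n = c ^ k := by rw [← ha c hc, ← hb c hc]
  have h2 : c ^ (n - k) = 1 := by rw [zpow_sub, h1, mul_inv_cancel]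
  exact orderOf_dvd_iff_zpow_eq_one.2 h2

/-- if `n = 1` modulo `p` then a power of `a` centralises `Z` -/
theorem GFX_near (Z : Subgroup G) (p κ : ℕ) (hZ : ∀ y ∈ Z, y ^ p ^ (κ + 1) = 1) (a : G) (n : ℤ) (ha : GFX_P Z a n) (hn : (p : ℤ) ∣ n - 1) :
    a ^ p ^ κ ∈ cz Z := by
  rw [GFX_cz]
  intro y hy
  rw [GFX_pow Z a n ha (p ^ κ) y hy, zpow_one]
  have h1 : ((p : ℤ) ^ (κ + 1)) ∣ n ^ p ^ κ - 1 ^ p ^ κ := dvd_sub_pow_of_dvd_sub hn κ
  rw [one_pow] at h1
  obtain ⟨l, hl⟩ := h1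
  have h2 : n ^ p ^ κ = ((p ^ (κ + 1) : ℕ) : ℤ) * l + 1 := by
    push_cast
    linarith
  rw [h2, zpow_add, zpow_one, zpow_mul, zpow_natCast, hZ y hy, one_zpow, one_mul]

end

theorem GFX_g1 {H X : Type} [CommGroup H] (act : H → X → X) (hone : ∀ x, act 1 x = x) (hmul : ∀ a b x, act (a * b) x = act a (act b x))
    (y : X) (μ : H) (n' u v : ℤ) (q : ℕ) (hq : μ ^ q = 1) (huv : u * (n' - 1) + v * (q : ℤ) = 1) (h : act (μ ^ n') y = act μ y) :
    act μ y = y := by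
  let Sb : Subgroup H :=
    { carrier := {α | act α y = y}
      one_mem' := hone y
      mul_mem' := by
        intro α β hα hβ
        change act (α * β) y = y
        have h1 : act α y = y := hα
        have h2 : act β y = y := hβ
        rw [hmul, h2, h1]
      inv_mem' := by
        intro α hα
        change act α⁻¹ y = y
        have h0 : act α y = y := hα
        have h1 : act (α⁻¹ * α) y = y := by rw [inv_mul_cancel]; exact hone y
        rw [hmul, h0] at h1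
        exact h1 }
  have h2 : μ ^ (n' - 1) ∈ Sb := by
    change act (μ ^ (n' - 1)) y = y
    have h3 : μ ^ (n' - 1) = μ⁻¹ * μ ^ n' := by rw [zpow_sub, zpow_one, mul_comm]
    rw [h3, hmul, h, ← hmul, inv_mul_cancel]
    exact hone y
  have h4 : μ = (μ ^ (n' - 1)) ^ u := by
    have h5 : μ ^ (u * (n' - 1) + v * (q : ℤ)) = μ := by rw [huv, zpow_one]
    rw [zpow_add, mul_comm v, zpow_mul μ (q : ℤ), zpow_natCast, hq, one_zpow, mul_one, mul_comm u, zpow_mul] at h5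
    exact h5.symm
  have h6 : μ ∈ Sb := by
    rw [h4]
    exact Sb.zpow_mem h2 u
  exact h6

theorem GFX_g2 {H : Type} [CommGroup H] (ν : H) (n' u v : ℤ) (q : ℕ) (hq : ν ^ q = 1) (huv : u * (n' - 1) + v * (q : ℤ) = 1) :
    (ν ^ (-u)) ^ n' * ν = ν ^ (-u) := by
  have h2 : (-u) * n' + 1 = -u + (q : ℤ) * v := by linarith
  rw [← zpow_mul, ← zpow_add_one, h2, zpow_add, zpow_mul ν (q : ℤ), zpow_natCast, hq, one_zpow, mul_one]

theorem GFX (hGS4 : GS4_stmt) (hGST : GST_stmt) (hGOB : GOB_stmt) (hZLM : ZLM_stmt) (hZGP : ZGP_stmt) : GFX_stmt := by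
  intro p e m t M hS G _ _ χ Z z x hZD θ hθ A hA hCA horb
  have hp : p.Prime := hS.pr
  have : Fact p.Prime := ⟨hp⟩
  have hem : m + 3 ≤ e := by have := hZD.em; omega
  obtain ⟨g1, g2, ⟨g3, g3'⟩, ⟨g4, -⟩, ⟨g5a, g5b, g5c, g5d, g5e⟩, g6, g7, g8⟩ := hZGP p e m hp hem G z hZD.uc.pe hZD.uc.od
  have hZz := hZD.zz
  rw [hZz] at g3 g3' g5a g5b g5c g5d g5e g4
  set c : G := z ^ p ^ (e - (m + 3)) with hc
  have hZc : Z = Subgroup.zpowers c := hZz.symm
  have hcZ : c ∈ Z := by rw [hZc]; exact Subgroup.mem_zpowers c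
  have hoc : orderOf c = p ^ (m + 2 + 1) := by
    have h1 := Nat.card_zpowers c
    rw [← hZc, g3] at h1
    exact h1.symm
  have hpw : ∀ y ∈ Z, y ^ p ^ (m + 2 + 1) = 1 := by
    intro y hy
    rw [hZc] at hy
    obtain ⟨i, rfl⟩ := Subgroup.mem_zpowers_iff.1 hy
    rw [← zpow_natCast, ← zpow_mul, mul_comm, zpow_mul, zpow_natCast, ← hoc, pow_orderOf_eq_one, one_zpow]
  have hex : ∀ a ∈ A, ∃ n : ℤ, GFX_P Z a n := fun a ha => GFX_ex Z c hZc a (hA ha)
  -- elements of `A` which act trivially modulo `p`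
  have hkey : ∀ a ∈ A, ∀ n : ℤ, GFX_P Z a n → (p : ℤ) ∣ n - 1 → a ∈ cz Z := by
    intro a ha n hn hpn
    have h1 := GFX_near Z p (m + 2) hpw a n hn hpn
    obtain ⟨ν, hν⟩ := horb a ha
    have h2 : SB M (cz Z) (cjF a θ) θ := by
      rw [hν]
      exact (hGST p e m t M hS G χ Z z x hZD θ hθ ν).2
    exact hGS4 p e m t M hS G χ Z z x hZD θ hθ a (hA ha) h2 (m + 2) h1
  have hkey' : ∀ a ∈ cz Z, ∀ n : ℤ, GFX_P Z a n → (p : ℤ) ∣ n - 1 := by
    intro a ha n hn
    have h1 := GFX_uniq Z c hcZ a n 1 hn ((GFX_cz Z a).1 ha)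
    rw [hoc] at h1
    refine dvd_trans ?_ h1
    exact_mod_cast dvd_pow_self p (by omega : m + 2 + 1 ≠ 0)
  -- the homomorphism to the units modulo `p`
  choose! N hN using hex
  have hNeq : ∀ a ∈ A, ∀ n : ℤ, GFX_P Z a n → ((N a : ℤ) : ZMod p) = (n : ZMod p) := by
    intro a ha n hn
    have h1 := GFX_uniq Z c hcZ a (N a) n (hN a ha) hn
    rw [hoc] at h1
    have h2 : (p : ℤ) ∣ N a - n := dvd_trans (by exact_mod_cast dvd_pow_self p (by omega : m + 2 + 1 ≠ 0)) h1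
    have h3 := (ZMod.intCast_zmod_eq_zero_iff_dvd (N a - n) p).2 h2
    rw [Int.cast_sub, sub_eq_zero] at h3
    exact h3
  let f : A →* ZMod p :=
    { toFun := fun a => ((N (a : G) : ℤ) : ZMod p)
      map_one' := by
        have h1 := hNeq 1 A.one_mem 1 (GFX_one Z)
        simp only [Subgroup.coe_one]
        rw [h1, Int.cast_one]
      map_mul' := by
        intro a b
        have h1 := hNeq ((a : G) * (b : G)) (A.mul_mem a.2 b.2) (N a * N b) (GFX_mul Z a b _ _ (hN a a.2) (hN b b.2))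
        simp only [Subgroup.coe_mul]
        rw [h1, Int.cast_mul] }
  let φ : A →* (ZMod p)ˣ := f.toHomUnits
  have hφ : ∀ a : A, ((φ a : (ZMod p)ˣ) : ZMod p) = ((N (a : G) : ℤ) : ZMod p) := fun a => MonoidHom.coe_toHomUnits f a
  have hker : ∀ a : A, φ a = 1 ↔ (a : G) ∈ cz Z := by
    intro a
    rw [← Units.val_inj, hφ, Units.val_one]
    constructor
    · intro h
      refine hkey a a.2 (N a) (hN a a.2) ?_
      have h2 : (((N (a : G) : ℤ) - 1 : ℤ) : ZMod p) = 0 := by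
        rw [Int.cast_sub, h, Int.cast_one, sub_self]
      exact (ZMod.intCast_zmod_eq_zero_iff_dvd _ p).1 h2
    · intro h
      have h2 := (ZMod.intCast_zmod_eq_zero_iff_dvd (N (a : G) - 1) p).2 (hkey' a h (N a) (hN a a.2))
      rw [Int.cast_sub, Int.cast_one, sub_eq_zero] at h2
      exact h2
  have hkers : φ.ker = (cz Z).subgroupOf A := by
    ext a
    rw [MonoidHom.mem_ker, hker, Subgroup.mem_subgroupOf]
  -- the conjugate of `st μ θ'`
  have hexp : ∀ μ : Z →* ℂˣ, μ ^ p ^ (m + 2 + 1) = 1 := by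
    intro μ
    ext y
    rw [MonoidHom.pow_apply, MonoidHom.one_apply, ← map_pow]
    have h1 : y ^ p ^ (m + 2 + 1) = 1 := by
      apply Subtype.ext
      rw [Subgroup.coe_pow, Subgroup.coe_one]
      exact hpw y y.2
    rw [h1, map_one]
  have hcj : ∀ a ∈ A, ∀ n' : ℤ, GFX_P Z a⁻¹ n' → ∀ (μ : Z →* ℂˣ) (η : G → ℂ), cjF a (st Z t μ η) = st Z t (μ ^ n') (cjF a η) := by
    intro a ha n' hn' μ η
    obtain ⟨μ', h1, -, h3⟩ := (hZLM p e t hp G hZD.tx Z μ).2.2.2.1 a (hA ha)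
    have h4 : μ' = μ ^ n' := by
      ext y
      have h5 : a⁻¹ * (y : G) * a = (y : G) ^ n' := by
        have h6 := hn' y y.2
        rw [inv_inv] at h6
        exact h6
      have h7 : a⁻¹ * (y : G) * a ∈ Z := by rw [h5]; exact Z.zpow_mem y.2 n'
      have h8 := h1 y y.2 h7
      have h9 : (⟨a⁻¹ * (y : G) * a, h7⟩ : Z) = y ^ n' := by
        apply Subtype.ext
        rw [Subgroup.coe_zpow]
        exact h5
      rw [h9, map_zpow] at h8
      have h10 : (⟨(y : G), y.2⟩ : Z) = y := rfl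
      rw [h10] at h8
      rw [h8]
      rfl
    rw [h3, h4]
  have hst2 : ∀ (μ ν : Z →* ℂˣ) (η : G → ℂ), st Z t (μ * ν) η = st Z t μ (st Z t ν η) := by
    intro μ ν η
    funext g
    unfold st
    rw [(hZLM p e t hp G hZD.tx Z μ).2.1.1 ν g, mul_assoc]
  have hst1 : ∀ η : G → ℂ, st Z t 1 η = η := by
    intro η
    funext g
    unfold st
    rw [(hZLM p e t hp G hZD.tx Z 1).2.1.2 g, one_mul]
  obtain ⟨o1, o2, o3, o4⟩ := hGOB p e t hp G hZD.tx Z
  have hirr : ∀ μ : Z →* ℂˣ, ∀ a ∈ cz Z, cjF a (st Z t μ θ) = st Z t μ θ := by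
    intro μ a ha
    exact funMap_inner (hGST p e m t M hS G χ Z z x hZD θ hθ μ).1.1 ha
  -- coprimality
  have hcop : ∀ a ∈ A, a ∉ cz Z → ∀ n' : ℤ, GFX_P Z a⁻¹ n' → ∃ u v : ℤ, u * (n' - 1) + v * ((p ^ (m + 2 + 1) : ℕ) : ℤ) = 1 := by
    intro a ha hac n' hn'
    have h1 : ¬ (p : ℤ) ∣ n' - 1 := by
      intro h2
      have h3 := hkey a⁻¹ (A.inv_mem ha) n' hn' h2
      exact hac (by have := (cz Z).inv_mem h3; rwa [inv_inv] at this)
    have h2 : IsCoprime (n' - 1) (p : ℤ) := by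
      have h3 : Prime (p : ℤ) := Nat.prime_iff_prime_int.1 hp
      exact ((h3.irreducible.coprime_iff_not_dvd).2 h1).symm
    have h4 : IsCoprime (n' - 1) ((p : ℤ) ^ (m + 2 + 1)) := h2.pow_right
    obtain ⟨u, v, huv⟩ := h4
    exact ⟨u, v, by push_cast; exact huv⟩
  have hfix : ∀ y : G → ℂ, ∀ a ∈ A, a ∉ cz Z → cjF a y = y → ∀ μ : Z →* ℂˣ, cjF a (st Z t μ y) = st Z t μ y → st Z t μ y = y := by
    intro y a ha hac hy μ hμ
    obtain ⟨n', hn'⟩ := GFX_ex Z c hZc a⁻¹ (hA (A.inv_mem ha))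
    rw [hcj a ha n' hn' μ y, hy] at hμ
    obtain ⟨u, v, huv⟩ := hcop a ha hac n' hn'
    exact GFX_g1 (fun α η => st Z t α η) hst1 hst2 y μ n' u v (p ^ (m + 2 + 1)) (hexp μ) huv hμ
  refine ⟨?_, ?_, ?_⟩
  · -- a fixed point
    obtain ⟨gen, hgen⟩ := IsCyclic.exists_generator (α := φ.range)
    obtain ⟨a₀, ha₀⟩ := gen.2
    have hall : ∀ a : A, ∃ j : ℤ, ((a : G) * ((a₀ : G) ^ j)⁻¹) ∈ cz Z := by
      intro a
      obtain ⟨j, hj⟩ := Subgroup.mem_zpowers_iff.1 (hgen ⟨φ a, a, rfl⟩)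
      refine ⟨j, ?_⟩
      have h1 : φ a = φ a₀ ^ j := by
        have h2 := congrArg Subtype.val hj
        rw [Subgroup.coe_zpow] at h2
        rw [ha₀]
        exact h2.symm
      have h3 : φ (a * (a₀ ^ j)⁻¹) = 1 := by rw [map_mul, map_inv, map_zpow, h1, mul_inv_cancel]
      have h4 := (hker _).1 h3
      rw [Subgroup.coe_mul, Subgroup.coe_inv, Subgroup.coe_zpow] at h4
      exact h4
    -- it is enough to have a point fixed by `a₀`
    have hred : ∀ μ : Z →* ℂˣ, cjF (a₀ : G) (st Z t μ θ) = st Z t μ θ → ∀ a ∈ A, cjF a (st Z t μ θ) = st Z t μ θ := by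
      intro μ hμ a ha
      let St : Subgroup G :=
        { carrier := {g | cjF g (st Z t μ θ) = st Z t μ θ}
          one_mem' := by
            simp only [Set.mem_ofPred_eq]
            funext g
            rw [cjF_apply, inv_one, one_mul, mul_one]
          mul_mem' := by
            intro g h hg hh
            simp only [Set.mem_ofPred_eq] at hg hh ⊢
            funext y
            rw [cjF_apply]
            have h1 : (g * h)⁻¹ * y * (g * h) = h⁻¹ * (g⁻¹ * y * g) * h := by group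
            rw [h1, ← cjF_apply h (st Z t μ θ), hh, ← cjF_apply g (st Z t μ θ), hg]
          inv_mem' := by
            intro g hg
            simp only [Set.mem_ofPred_eq] at hg ⊢
            funext y
            rw [cjF_apply, inv_inv]
            have h1 := congrFun hg (g * y * g⁻¹)
            rw [cjF_apply] at h1
            have h2 : g⁻¹ * (g * y * g⁻¹) * g = y := by group
            rw [h2] at h1
            exact h1.symm }
      obtain ⟨j, hj⟩ := hall ⟨a, ha⟩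
      have h3 : a * ((a₀ : G) ^ j)⁻¹ ∈ St := hirr μ _ hj
      have h4 : (a₀ : G) ^ j ∈ St := St.zpow_mem hμ j
      have h5 : a = (a * ((a₀ : G) ^ j)⁻¹) * (a₀ : G) ^ j := by group
      have h6 : a ∈ St := by
        rw [h5]
        exact St.mul_mem h3 h4
      exact h6
    -- uniqueness
    have huq : ∀ μ : Z →* ℂˣ, (∀ a ∈ A, cjF a (st Z t μ θ) = st Z t μ θ) → ∀ a ∈ A, ∀ y' : G → ℂ, orb Z t θ y' → y' ≠ st Z t μ θ → cjF a y' = y' → a ∈ cz Z := by
      intro μ hμ a ha y' hy' hne hay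
      by_contra hac
      obtain ⟨ν, hν⟩ := o3 _ _ _ (o2 _ _ ⟨μ, rfl⟩) hy'
      rw [hν] at hay
      have h1 := hfix (st Z t μ θ) a ha hac (hμ a ha) ν hay
      exact hne (hν.trans h1)
    by_cases h0 : (a₀ : G) ∈ cz Z
    · refine ⟨st Z t 1 θ, ⟨1, rfl⟩, hred 1 (hirr 1 _ h0), huq 1 (hred 1 (hirr 1 _ h0))⟩
    · obtain ⟨n', hn'⟩ := GFX_ex Z c hZc (a₀ : G)⁻¹ (hA (A.inv_mem a₀.2))
      obtain ⟨u, v, huv⟩ := hcop a₀ a₀.2 h0 n' hn'
      obtain ⟨ν₁, hν₁⟩ := horb a₀ a₀.2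
      have h1 : cjF (a₀ : G) (st Z t (ν₁ ^ (-u)) θ) = st Z t (ν₁ ^ (-u)) θ := by
        rw [hcj a₀ a₀.2 n' hn' (ν₁ ^ (-u)) θ, hν₁, ← hst2]
        congr 1
        exact GFX_g2 ν₁ n' u v (p ^ (m + 2 + 1)) (hexp ν₁) huv
      exact ⟨st Z t (ν₁ ^ (-u)) θ, ⟨_, rfl⟩, hred _ h1, huq _ (hred _ h1)⟩
  · -- the index
    have h1 : Nat.card φ.ker * φ.ker.index = Nat.card A := Subgroup.card_mul_index φ.ker
    have h2 : φ.ker.index = Nat.card φ.range := Subgroup.index_ker φ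
    have h3 : Nat.card φ.range ≤ p - 1 := by
      have h4 : Nat.card φ.range ≤ Nat.card (ZMod p)ˣ := Nat.card_le_card_of_injective _ Subtype.val_injective
      rw [Nat.card_eq_fintype_card (α := (ZMod p)ˣ), ZMod.card_units p] at h4
      exact h4
    have h5 : Nat.card φ.ker = Nat.card (cz Z) := by
      rw [hkers]
      exact Nat.card_congr (Subgroup.subgroupOfEquivOfLe hCA).toEquiv
    rw [← h1, h2, h5, mul_comm]
    exact Nat.mul_le_mul_right _ h3
  · intro hAE a ha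
    refine hkey a ha (N a) (hN a ha) ?_
    -- the element of order `p`
    have h1 : z ^ p ^ (e - 1) = c ^ p ^ (m + 2) := by
      rw [hc, ← pow_mul, ← pow_add]
      congr 2
      omega
    have h2 : z ^ p ^ (e - 1) ∈ Eg p e z := Subgroup.mem_zpowers _
    have h3 := Subgroup.mem_centralizer_iff.1 (hAE ha) _ h2
    have h4 : c ^ p ^ (m + 2) ∈ Z := Z.pow_mem hcZ _
    have h5 := hN a ha _ h4
    rw [h1] at h3
    rw [← h3, mul_inv_cancel_right] at h5
    have h6 : (c ^ p ^ (m + 2)) ^ (N a - 1) = 1 := by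
      rw [zpow_sub, zpow_one, ← h5, mul_inv_cancel]
    have h7 := orderOf_dvd_iff_zpow_eq_one.2 h6
    have h8 : orderOf (c ^ p ^ (m + 2)) = p := by
      rw [orderOf_pow' c (pow_pos hp.pos _).ne', hoc]
      have h9 : Nat.gcd (p ^ (m + 2 + 1)) (p ^ (m + 2)) = p ^ (m + 2) :=
        Nat.gcd_eq_right (pow_dvd_pow p (by omega))
      rw [h9, pow_succ, Nat.mul_div_cancel_left _ (pow_pos hp.pos _)]
    rw [h8] at h7
    exact h7

end Pool.Agent.ND
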