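import Pool.Agent.helper37.ND.Spec
import Pool.Agent.helper59.FI.Base

/-!
# MP_baa4d7_al, THEOREM ND, row GKQ
-/

set_option autoImplicit false

namespace Pool.Agent.ND

open Pool.Agent.helper58.DC Pool.Agent.DI Pool.Agent.GR Pool.Agent.OB Pool.Agent.DR Pool.Agent.FI Pool.Agent.FI3 Pool.Agent.FI4 Pool.Agent.FI4I Pool.Agent.LE Pool.Agent.L5 Pool.Agent.NAB

theorem GKQ_cj {G : Type} [Group G] (E' : Subgroup G) (l : G) (hl : l ∈ nz E') : cjS l E' = E' := by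
  ext w
  rw [mem_cjS]
  have h1 := Subgroup.mem_normalizer_iff.1 hl (l⁻¹ * w * l)
  have h2 : l * (l⁻¹ * w * l) * l⁻¹ = w := by group
  rw [h2] at h1
  exact h1

theorem GKQ_back {G : Type} [Group G] (E F : Subgroup G) (l : G) (hl : l ∈ nz E) (h : cjS l F = E) : F = E := by
  ext w
  have h1 : l * w * l⁻¹ ∈ cjS l F ↔ w ∈ F := by
    rw [mem_cjS]
    have h2 : l⁻¹ * (l * w * l⁻¹) * l = w := by group
    rw [h2]
  rw [← h1, h]
  exact (Subgroup.mem_normalizer_iff.1 hl w).symm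

theorem GKQ (hEXB : EXB_stmt) (hTRN : TRN_stmt) (hNUH : NUH_stmt) (hNUE : NUE_stmt) (hNEG : NEG_stmt) (hSYL : SYL_stmt) (hNQU : NQU_stmt) : GKQ_stmt := by
  intro p e m M hS hme G _ _ χ hχ z x hu E' y hy
  have hp : p.Prime := hS.pr
  have : Fact p.Prime := ⟨hp⟩
  have hχ' : χ ∈ IrrOn (⊤ : Subgroup G) := IrrOn_top.2 hχ
  obtain ⟨-, -, -, -, -, -, s7, s8, -⟩ := hSYL p G
  have hK : Cz (nz E') y ≤ nz E' := inf_le_left
  have hzero : ∀ (H : Subgroup G) (η : G → ℂ), η ∈ IrrOn H → ∀ w, w ∉ H → η w = 0 := fun H η hη => hη.1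
  -- the second statement
  have hA : y ∈ nz E' → ∀ η ∈ BE p e m M (⊤ : Subgroup G) (Cz (nz E') y) E' χ, ∃ φ ∈ BE p e m M (⊤ : Subgroup G) (nz E') E' χ, SB M (nz E') η φ := by
    intro hyN η hη
    obtain ⟨hη1, hη2, z₁, x₁, hη3, hη4⟩ := hη
    have hcz : nz E' ⊓ cz (Subgroup.zpowers y) = Cz (nz E') y := by rw [s7]; rfl
    have hη1' : η ∈ IrrOn (nz E' ⊓ cz (Subgroup.zpowers y)) := by rw [hcz]; exact hη1
    obtain ⟨φ', hφ1, hφ2⟩ := hEXB p M hS G (nz E') (Subgroup.zpowers y) (s8 y hy) (by rw [Subgroup.zpowers_le]; exact hyN) η hη1'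
    have hT := hTRN G M (nz E') ⊤ le_top η φ' χ (fun w hw => hη1.1 w (fun h => hw (hK h))) hφ1.1 hφ2
    have hφ3 : SB M (⊤ : Subgroup G) φ' χ := hT.2.2 hη2
    obtain ⟨g, -, hg⟩ := hNUH p e m M hS G ⊤ (nz E') le_top φ' hφ1 χ z x hφ3 hu
    obtain ⟨l, hl, hl'⟩ := hNUH p e m M hS G (nz E') (Cz (nz E') y) hK η hη1 φ' _ _ hφ2 hg
    obtain ⟨k, hk, hk'⟩ := hNUE p e m M hS hme G (Cz (nz E') y) η hη1 _ _ _ _ hη3 hl'
    rw [hη4, GKQ_cj E' k (hK hk), (hNEG p e hp G (g * z * g⁻¹)).1 l] at hk'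
    exact ⟨φ', ⟨hφ1, hφ3, _, _, hg, GKQ_back E' _ l hl hk'⟩, hφ2⟩
  refine ⟨?_, hA, ?_⟩
  · intro hyN φ hφ
    ext η
    constructor
    · rintro ⟨hη1, hη2⟩
      obtain ⟨hφ1, hφ2, z₁, x₁, hφ3, hφ4⟩ := hφ
      have hT := hTRN G M (nz E') ⊤ le_top η φ χ (fun w hw => hη1.1 w (fun h => hw (hK h))) hφ1.1 hη2
      obtain ⟨l, hl, hl'⟩ := hNUH p e m M hS G (nz E') (Cz (nz E') y) hK η hη1 φ _ _ hη2 hφ3
      refine ⟨hη1, hT.2.1 hφ2, _, _, hl', ?_⟩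
      rw [(hNEG p e hp G z₁).1 l, hφ4, GKQ_cj E' l hl]
    · intro hη
      obtain ⟨φ', hφ', h1⟩ := hA hyN η hη
      have hφt : φ ∈ BE p e m M (⊤ : Subgroup G) (⊤ ⊓ nz E') E' χ := by rw [top_inf_eq]; exact hφ
      have h2 := (hNQU p e m M hS hme G ⊤ E' χ hχ' φ hφt).1
      rw [top_inf_eq] at h2
      rw [h2] at hφ'
      exact ⟨hη.1, h1.trans hφ'.2⟩
  · intro η hη
    obtain ⟨-, -, z', x', h3, h4⟩ := hη
    obtain ⟨-, n2, -, -, ⟨-, n5⟩, -⟩ := hNEG p e hp G z'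
    have h5 : E' ≤ Cz (⊤ : Subgroup G) y ⊓ nz E' := by
      rw [← h4]
      rw [← h4] at h3
      exact n2 _ h3.zm
    have h6 : y ∈ cz E' := by
      refine Subgroup.mem_centralizer_iff.2 fun w hw => ?_
      have h7 := (Subgroup.mem_inf.1 (Subgroup.mem_inf.1 (h5 hw)).1).2
      have h8 := Subgroup.mem_centralizer_iff.1 h7 y rfl
      exact h8.symm
    rw [← h4] at h6 ⊢
    exact n5 h6

end Pool.Agent.ND
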